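import Pool.Agent.Q185.SI.Line

/-!
# MP_076221_an: step-isometries on dense sets of strictly convex spaces with separable dual extend
-/

namespace Pool.Agent.Results.MP_076221_an.StepIsometriesExtend

open Filter Topology
open Pool.Agent.Q185.SI

/-- Strict convexity: two different unit vectors have a midpoint of norm less than one. -/
def IsStrictlyConvex (X : Type*) [NormedAddCommGroup X] [Module ℝ X] : Prop :=
  ∀ x y : X, ‖x‖ = 1 → ‖y‖ = 1 → x ≠ y → ‖(1 / 2 : ℝ) • (x + y)‖ < 1

/-- A step-isometry on a set `S`: a bijection of `S` preserving the integer parts of the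
distances. -/
def IsStepIsometryOn {X : Type*} [NormedAddCommGroup X] (S : Set X) (T : S → S) : Prop :=
  Function.Bijective T ∧ ∀ x y : S, ⌊‖(x : X) - (y : X)‖⌋ = ⌊‖(T x : X) - (T y : X)‖⌋

/-- A step-isometry on the whole space. -/
def IsStepIsometry {X : Type*} [NormedAddCommGroup X] (T : X → X) : Prop :=
  Function.Bijective T ∧ ∀ x y : X, ⌊‖x - y‖⌋ = ⌊‖T x - T y‖⌋

/-- The real case. -/
theorem real_case {X : Type*} [NormedAddCommGroup X] [NormedSpace ℝ X] [CompleteSpace X]
    [TopologicalSpace.SeparableSpace (StrongDual ℝ X)] (hsc : IsStrictlyConvex X)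
    (S : Set X) (hS : Dense S) (T : S → S) (hT : IsStepIsometryOn S T) :
    (∃ T' : X → X, IsStepIsometry T' ∧ ∀ s : S, T' s = T s) ∧
    ((∃ u v : X, LinearIndependent ℝ ![u, v]) →
      ∃ T' : X → X, Isometry T' ∧ Function.Bijective T' ∧ ∀ s : S, T' s = T s) := by
  obtain ⟨s₀, hs₀⟩ := hS.nonempty
  let o : S := ⟨s₀, hs₀⟩
  let p : S → X := fun s => (s : X) - o
  let q : S → X := fun s => (T s : X) - T o
  have hrangeS : DenseRange (fun s : S => (s : X)) := by
    rw [denseRange_iff_closure_range, Subtype.range_coe]; exact hS.closure_eq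
  have hpair : Pair p q := by
    refine ⟨?_, ?_, fun i j => ?_, ⟨o, sub_self _, sub_self _⟩⟩
    · exact ((Homeomorph.subRight (o : X)).surjective.denseRange).comp hrangeS
        (Homeomorph.subRight (o : X)).continuous
    · have h1 : DenseRange (fun s : S => (T s : X)) := by
        have h2 : Set.range (fun s : S => (T s : X)) = S := by
          have : (fun s : S => (T s : X)) = Subtype.val ∘ T := rfl
          rw [this, Set.range_comp, hT.1.surjective.range_eq, Set.image_univ, Subtype.range_coe]
        rw [denseRange_iff_closure_range, h2]; exact hS.closure_eq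
      exact ((Homeomorph.subRight (T o : X)).surjective.denseRange).comp h1
        (Homeomorph.subRight (T o : X)).continuous
    · have h1 : p i - p j = (i : X) - j := by simp [p]
      have h2 : q i - q j = (T i : X) - T j := by simp [q]
      rw [h1, h2]; exact hT.2 i j
  -- translate back
  have back : ∀ V : X → X, (∀ i, V (p i) = q i) → ∀ s : S, V ((s : X) - o) + T o = T s := by
    intro V hV s
    have h1 : V ((s : X) - o) = (T s : X) - T o := hV s
    rw [h1, sub_add_cancel]
  have bij : ∀ V : X → X, Function.Bijective V →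
      Function.Bijective (fun x : X => V (x - o) + T o) := by
    intro V hV
    have h1 : (fun x : X => V (x - o) + T o) =
        (Equiv.addRight (T o : X)) ∘ V ∘ (Equiv.subRight (o : X)) := by
      ext x; simp
    rw [h1]
    exact (Equiv.bijective _).comp (hV.comp (Equiv.bijective _))
  have case2 : (∀ e : X, ∃ v : X, ∀ c : ℝ, v ≠ c • e) →
      ∃ T' : X → X, Isometry T' ∧ Function.Bijective T' ∧ ∀ s : S, T' s = T s := by
    intro hdim
    obtain ⟨U, hU⟩ := hpair.isometry hsc hdim
    refine ⟨fun x => U (x - o) + T o, ?_, bij U U.bijective, back U fun i => (hU i).symm⟩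
    refine Isometry.of_dist_eq fun x y => ?_
    rw [dist_add_right, U.dist_map, dist_sub_right]
  constructor
  · by_cases hdim : ∀ e : X, ∃ v : X, ∀ c : ℝ, v ≠ c • e
    · obtain ⟨T', h1, h2, h3⟩ := case2 hdim
      refine ⟨T', ⟨h2, fun x y => ?_⟩, h3⟩
      rw [← dist_eq_norm, ← dist_eq_norm, h1.dist_eq]
    · push Not at hdim
      obtain ⟨e₀, he₀⟩ := hdim
      by_cases h0 : ∃ u : X, u ≠ 0
      · obtain ⟨V, h1, h2, h3⟩ := hpair.line h0 he₀
        refine ⟨fun x => V (x - o) + T o, ⟨bij V h1, fun x y => ?_⟩, back V h3⟩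
        have e1 : x - y = (x - o) - (y - o) := by abel
        rw [e1, h2, add_sub_add_right_eq_sub]
      · push Not at h0
        refine ⟨id, ⟨Function.bijective_id, fun x y => rfl⟩, fun s => ?_⟩
        rw [h0 (T s : X), h0 (id (s : X))]
  · rintro ⟨u, v, huv⟩
    apply case2
    intro e
    by_contra hcon
    push Not at hcon
    obtain ⟨a, ha⟩ := hcon u
    obtain ⟨b, hb⟩ := hcon v
    rw [LinearIndependent.pair_iff] at huv
    have h1 := huv b (-a) (by rw [ha, hb, smul_smul, smul_smul, mul_comm b a, neg_mul, neg_smul,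
      add_neg_cancel])
    have ha0 : a = 0 := neg_eq_zero.1 h1.2
    have h2 := huv 1 0 (by rw [ha, ha0]; simp)
    exact one_ne_zero h2.1

/-- **Step-isometries extend.**  Let `X` be a strictly convex real or complex Banach space with
separable dual, `S` a countable (here: any) dense subset and `T` a step-isometry on `S`.  Then `T`
extends to a step-isometry of `X`.  If the real dimension of `X` is at least two, then `T` even
extends to a surjective isometry of `X`. -/
theorem result {𝕜 : Type*} [RCLike 𝕜] {X : Type*} [NormedAddCommGroup X] [NormedSpace 𝕜 X]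
    [NormedSpace ℝ X] [IsScalarTower ℝ 𝕜 X] [CompleteSpace X]
    [TopologicalSpace.SeparableSpace (StrongDual 𝕜 X)] (hsc : IsStrictlyConvex X)
    (S : Set X) (hS : Dense S) (T : S → S) (hT : IsStepIsometryOn S T) :
    (∃ T' : X → X, IsStepIsometry T' ∧ ∀ s : S, T' s = T s) ∧
    ((∃ u v : X, LinearIndependent ℝ ![u, v]) →
      ∃ T' : X → X, Isometry T' ∧ Function.Bijective T' ∧ ∀ s : S, T' s = T s) := by
  have hsep : TopologicalSpace.SeparableSpace (StrongDual ℝ X) :=
    (StrongDual.extendRCLikeₗᵢ (𝕜 := 𝕜) (F := X)).symm.surjective.denseRange.separableSpace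
      (StrongDual.extendRCLikeₗᵢ (𝕜 := 𝕜) (F := X)).symm.continuous
  exact real_case hsc S hS T hT

end Pool.Agent.Results.MP_076221_an.StepIsometriesExtend
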